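import Mathlib

namespace Pool.Agent.Results.MP_5207c4_ag.Split

open Polynomial

/-- the monic polynomial `x^d + ∑ a_j x^j` -/
noncomputable def Q {d : ℕ} (a : Fin d → ℝ) : ℝ[X] := X ^ d + ∑ j : Fin d, C (a j) * X ^ (j : ℕ)

/-- `R_{4,d}(τ)`: all coefficients nonzero, no derivative `Q^{(l)}` (`l < d`) has a multiple real
root, and `Q^{(l)}` has `(τ l).1` positive and `(τ l).2` negative roots -/
def R4 (d : ℕ) (τ : Fin d → ℕ × ℕ) : Set (Fin d → ℝ) :=
  {a | (∀ j, a j ≠ 0) ∧ ∀ l : Fin d,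
    (∀ x : ℝ, (derivative^[l] (Q a)).rootMultiplicity x ≤ 1) ∧
    Set.ncard {x : ℝ | 0 < x ∧ (derivative^[l] (Q a)).IsRoot x} = (τ l).1 ∧
    Set.ncard {x : ℝ | x < 0 ∧ (derivative^[l] (Q a)).IsRoot x} = (τ l).2}

lemma ev0 (a : Fin 3 → ℝ) (x : ℝ) : (Q a).eval x = x ^ 3 + a 2 * x ^ 2 + a 1 * x + a 0 := by
  simp [Q, Fin.sum_univ_three]; ring
lemma ev1 (a : Fin 3 → ℝ) (x : ℝ) :
    (derivative (Q a)).eval x = 3 * x ^ 2 + 2 * a 2 * x + a 1 := by
  simp [Q, Fin.sum_univ_three]; ring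
lemma ev2 (a : Fin 3 → ℝ) (x : ℝ) :
    (derivative (derivative (Q a))).eval x = 6 * x + 2 * a 2 := by
  simp [Q, Fin.sum_univ_three]; ring
lemma ev3 (a : Fin 3 → ℝ) (x : ℝ) :
    (derivative (derivative (derivative (Q a)))).eval x = 6 := by
  simp [Q, Fin.sum_univ_three]; ring

lemma simple {p : ℝ[X]} (h : ∀ x, p.eval x = 0 → (derivative p).eval x ≠ 0) (x : ℝ) :
    p.rootMultiplicity x ≤ 1 := by
  by_contra hc
  push Not at hc
  have hp : p ≠ 0 := by rintro rfl; simp at hc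
  have := (one_lt_rootMultiplicity_iff_isRoot hp).mp hc
  exact h x this.1 this.2

def tau : Fin 3 → ℕ × ℕ := ![(1, 0), (2, 0), (1, 0)]

lemma mem (c r : ℝ) (hc : c ≠ 0) (hr : 0 < r)
    (h : ∀ x : ℝ, x ^ 3 - 9 * x ^ 2 + 24 * x + c = 0 ↔ x = r) (h2 : r ≠ 2) (h4 : r ≠ 4) :
    ![c, 24, -9] ∈ R4 3 tau := by
  have q : ∀ x : ℝ, 3 * x ^ 2 - 18 * x + 24 = 0 ↔ x = 2 ∨ x = 4 := by
    intro x
    have : 3 * x ^ 2 - 18 * x + 24 = 3 * ((x - 2) * (x - 4)) := by ring
    rw [this]; simp [sub_eq_zero]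
  have e0 : ∀ x, (Q ![c, 24, -9]).eval x = 0 ↔ x = r := fun x => by
    rw [ev0, ← h]; simp; ring_nf
  have e1 : ∀ x, (derivative (Q ![c, 24, -9])).eval x = 0 ↔ x = 2 ∨ x = 4 := fun x => by
    rw [ev1, ← q]; simp; ring_nf
  have e2 : ∀ x, (derivative (derivative (Q ![c, 24, -9]))).eval x = 0 ↔ x = 3 := fun x => by
    rw [ev2]; simp; constructor <;> intro h <;> linarith
  refine ⟨fun j => by fin_cases j <;> simp [hc], fun l => ?_⟩
  fin_cases l
  · refine ⟨simple fun x hx h1 => ?_, ?_, ?_⟩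
    · have a := (e0 x).mp hx
      rcases (e1 x).mp h1 with b | b
      · exact h2 (a ▸ b)
      · exact h4 (a ▸ b)
    · have : {x : ℝ | 0 < x ∧ (Q ![c, 24, -9]).IsRoot x} = {r} := by
        ext x; simp only [Set.mem_ofPred_eq, IsRoot, e0, Set.mem_singleton_iff]
        exact ⟨fun h => h.2, fun h => ⟨h ▸ hr, h⟩⟩
      simpa [tau] using congrArg Set.ncard this
    · have : {x : ℝ | x < 0 ∧ (Q ![c, 24, -9]).IsRoot x} = ∅ := by
        ext x; simp only [Set.mem_ofPred_eq, IsRoot, e0, Set.mem_empty_iff_false, iff_false]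
        rintro ⟨a, b⟩; linarith
      simpa [tau] using congrArg Set.ncard this
  · refine ⟨simple fun x hx h1 => ?_, ?_, ?_⟩
    · have a := (e2 x).mp h1
      rcases (e1 x).mp hx with b | b <;> linarith
    · have : {x : ℝ | 0 < x ∧ (derivative (Q ![c, 24, -9])).IsRoot x} = {2, 4} := by
        ext x; simp only [Set.mem_ofPred_eq, IsRoot, e1, Set.mem_insert_iff, Set.mem_singleton_iff]
        exact ⟨fun h => h.2, fun h => ⟨by rcases h with h | h <;> linarith, h⟩⟩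
      have h5 := congrArg Set.ncard this
      rw [Set.ncard_pair (by norm_num)] at h5
      simpa [tau] using h5
    · have : {x : ℝ | x < 0 ∧ (derivative (Q ![c, 24, -9])).IsRoot x} = ∅ := by
        ext x; simp only [Set.mem_ofPred_eq, IsRoot, e1, Set.mem_empty_iff_false, iff_false]
        rintro ⟨a, b | b⟩ <;> linarith
      simpa [tau] using congrArg Set.ncard this
  · refine ⟨simple fun x _ h1 => ?_, ?_, ?_⟩
    · have := ev3 ![c, 24, -9] x
      simp only [Function.iterate_succ, Function.iterate_zero, Function.comp_apply, id] at h1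
      linarith
    · have : {x : ℝ | 0 < x ∧ (derivative (derivative (Q ![c, 24, -9]))).IsRoot x} = {3} := by
        ext x; simp only [Set.mem_ofPred_eq, IsRoot, e2, Set.mem_singleton_iff]
        exact ⟨fun h => h.2, fun h => ⟨by linarith, h⟩⟩
      simpa [tau] using congrArg Set.ncard this
    · have : {x : ℝ | x < 0 ∧ (derivative (derivative (Q ![c, 24, -9]))).IsRoot x} = ∅ := by
        ext x; simp only [Set.mem_ofPred_eq, IsRoot, e2, Set.mem_empty_iff_false, iff_false]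
        rintro ⟨a, b⟩; linarith
      simpa [tau] using congrArg Set.ncard this

/-- value of `Q` at its inflection point -/
noncomputable def psi (a : Fin 3 → ℝ) : ℝ := 2 * a 2 ^ 3 / 27 - a 1 * a 2 / 3 + a 0

lemma psi_ne (a : Fin 3 → ℝ) (ha : a ∈ R4 3 tau) : psi a ≠ 0 := by
  intro h0
  obtain ⟨hne, h⟩ := ha
  obtain ⟨-, p0, n0⟩ := h 0
  obtain ⟨-, p1, -⟩ := h 1
  simp only [tau, Fin.val_zero, Function.iterate_zero, id, Fin.val_one, Function.iterate_one,
    Matrix.cons_val_zero, Matrix.cons_val_one, IsRoot, ev0, ev1] at p0 n0 p1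
  obtain ⟨u, v, huv, huv2⟩ := Set.ncard_eq_two.mp p1
  have hu : 3 * u ^ 2 + 2 * a 2 * u + a 1 = 0 :=
    (show u ∈ {x : ℝ | 0 < x ∧ 3 * x ^ 2 + 2 * a 2 * x + a 1 = 0} by rw [huv2]; simp).2
  have hv : 3 * v ^ 2 + 2 * a 2 * v + a 1 = 0 :=
    (show v ∈ {x : ℝ | 0 < x ∧ 3 * x ^ 2 + 2 * a 2 * x + a 1 = 0} by rw [huv2]; simp).2
  have hs : 3 * (u + v) + 2 * a 2 = 0 := by
    have : (u - v) * (3 * (u + v) + 2 * a 2) = 0 := by linear_combination hu - hv
    exact (mul_eq_zero.mp this).resolve_left (sub_ne_zero.mpr huv)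
  have hD : 0 < a 2 ^ 2 / 3 - a 1 := by
    have : a 2 ^ 2 / 3 - a 1 = 3 / 4 * (u - v) ^ 2 := by
      have e : a 2 = -3 / 2 * (u + v) := by linarith
      rw [e] at hu ⊢
      linear_combination -hu
    rw [this]
    have := sub_ne_zero.mpr huv
    positivity
  set s := Real.sqrt (a 2 ^ 2 / 3 - a 1) with hs'
  have hs0 : 0 < s := Real.sqrt_pos.mpr hD
  have hs2 : s ^ 2 = a 2 ^ 2 / 3 - a 1 := Real.sq_sqrt hD.le
  obtain ⟨r, hr⟩ := Set.ncard_eq_one.mp p0
  have fin : {x : ℝ | x < 0 ∧ x ^ 3 + a 2 * x ^ 2 + a 1 * x + a 0 = 0}.Finite := by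
    have hQ : Q a ≠ 0 := by
      intro e
      have := ev0 a 0
      rw [e] at this
      simp at this
      exact hne 0 this.symm
    refine (Q a).roots.toFinset.finite_toSet.subset fun x hx => ?_
    simp only [Finset.mem_coe, Multiset.mem_toFinset, mem_roots hQ, IsRoot, ev0]
    exact hx.2
  have hn := (Set.ncard_eq_zero fin).mp n0
  have all : ∀ x : ℝ, x ^ 3 + a 2 * x ^ 2 + a 1 * x + a 0 = 0 → x = r := by
    intro x hx
    rcases lt_trichotomy x 0 with h | h | h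
    · exact absurd (show x ∈ {x : ℝ | x < 0 ∧ x ^ 3 + a 2 * x ^ 2 + a 1 * x + a 0 = 0} from
        ⟨h, hx⟩) (by rw [hn]; simp)
    · rw [h] at hx; simp at hx; exact absurd hx (hne 0)
    · have : x ∈ {x : ℝ | 0 < x ∧ x ^ 3 + a 2 * x ^ 2 + a 1 * x + a 0 = 0} := ⟨h, hx⟩
      rw [hr] at this; exact this
  unfold psi at h0
  have r1 := all (-a 2 / 3) (by linear_combination h0)
  have r2 := all (-a 2 / 3 + s) (by linear_combination h0 + s * hs2)
  linarith

theorem result : ∃ (d : ℕ) (τ : Fin d → ℕ × ℕ),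
    (R4 d τ).Nonempty ∧ ¬ IsPreconnected (R4 d τ) := by
  have m1 : ![-36, 24, -9] ∈ R4 3 tau := mem (-36) 6 (by norm_num) (by norm_num) (fun x => by
    have : x ^ 3 - 9 * x ^ 2 + 24 * x + -36 = (x - 6) * (x ^ 2 - 3 * x + 6) := by ring
    have h2 : x ^ 2 - 3 * x + 6 ≠ 0 := by nlinarith [sq_nonneg (x - 3 / 2)]
    rw [this]; simp [h2, sub_eq_zero]) (by norm_num) (by norm_num)
  have m2 : ![-79 / 8, 24, -9] ∈ R4 3 tau := mem (-79 / 8) (1 / 2) (by norm_num) (by norm_num)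
    (fun x => by
    have : x ^ 3 - 9 * x ^ 2 + 24 * x + -79 / 8 = (x - 1 / 2) * (x ^ 2 - 17 / 2 * x + 79 / 4) := by
      ring
    have h2 : x ^ 2 - 17 / 2 * x + 79 / 4 ≠ 0 := by nlinarith [sq_nonneg (x - 17 / 4)]
    rw [this, mul_eq_zero, sub_eq_zero]; simp only [h2, or_false]) (by norm_num) (by norm_num)
  refine ⟨3, tau, ⟨_, m1⟩, fun h => ?_⟩
  have hc : Continuous psi := by unfold psi; fun_prop
  have := h.intermediate_value m1 m2 hc.continuousOn
    (show (0 : ℝ) ∈ Set.Icc _ _ by simp [psi]; norm_num)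
  obtain ⟨a, ha, h0⟩ := this
  exact psi_ne a ha h0

end Pool.Agent.Results.MP_5207c4_ag.Split
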